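import Pool.Agent.Helper15.SailMain

namespace Pool.Agent.Results.MP_7af359_nt.ConeConditionRedundant

open Pool.Agent.Helper15.Sail

/-- Let `A` be an integer `3 × 3` matrix with irreducible characteristic polynomial and three real
eigenvalues.  Every candidate for `A` satisfying conditions 1, 3 and 5 satisfies condition 7. -/
theorem result (A : Matrix (Fin 3) (Fin 3) ℤ)
    (hirr : Irreducible (A.charpoly.map (Int.castRingHom ℚ)))
    (hreal : (A.charpoly.map (Int.castRingHom ℝ)).Splits)
    (ι : Type) [Finite ι] (C : Candidate A ι)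
    (h1 : C.Cond1) (h3 : C.Cond3) (h5 : C.Cond5) : C.Cond7 :=
  cond7_of A hirr hreal C h1 h3 h5

end Pool.Agent.Results.MP_7af359_nt.ConeConditionRedundant
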